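import Pool.Agent.V1121.QG.Exch

set_option autoImplicit false

/-!
# A strong exchange condition for twisted involutions

For every Coxeter system `(W, S)` (of finite or infinite rank) and every `W`-conjugacy class `K` of
twisted involutions in `W⁺ = W ⋊ Aut(W, S)` satisfying `ℓ(rwr) = ℓ(w) ⇒ rwr = w`, one has
`ℓ(rwr) < ℓ(w) ⇒ rwr < w` in the Bruhat order.
-/

namespace Pool.Agent.Results.MP_af48a1_al.StrongExchange

variable {B : Type*} {M : CoxeterMatrix B} {W : Type*} [Group W]

/-- `Aut(W, S)`: the group automorphisms of `W` with `θ(S) = S`. -/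
def AutS (cs : CoxeterSystem M W) : Subgroup (MulAut W) where
  carrier := {θ | θ '' Set.range cs.simple = Set.range cs.simple}
  mul_mem' := by
    intro θ η hθ hη
    have hθ' : θ '' Set.range cs.simple = Set.range cs.simple := hθ
    have hη' : η '' Set.range cs.simple = Set.range cs.simple := hη
    have e : (⇑(θ * η) : W → W) = ⇑θ ∘ ⇑η := rfl
    change (θ * η) '' Set.range cs.simple = Set.range cs.simple
    rw [e, Set.image_comp, hη', hθ']
  one_mem' := by
    have e : (⇑(1 : MulAut W) : W → W) = id := rfl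
    change (1 : MulAut W) '' Set.range cs.simple = Set.range cs.simple
    rw [e, Set.image_id]
  inv_mem' := by
    intro θ hθ
    have hθ' : θ '' Set.range cs.simple = Set.range cs.simple := hθ
    change (θ⁻¹ : MulAut W) '' Set.range cs.simple = Set.range cs.simple
    conv_lhs => rw [← hθ']
    rw [← Set.image_comp]
    have e : (⇑(θ⁻¹ : MulAut W) ∘ ⇑θ : W → W) = id := by
      funext w
      exact MulAut.inv_apply_self W θ w
    rw [e, Set.image_id]

/-- The extended group `W⁺ = W ⋊ Aut(W, S)`, with `(x, α)(y, β) = (x α(y), α β)`. -/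
abbrev WPlus (cs : CoxeterSystem M W) : Type _ := W ⋊[(AutS cs).subtype] (AutS cs)

/-- The inclusion `x ↦ (x, id)`. -/
abbrev emb (cs : CoxeterSystem M W) : W →* WPlus cs := SemidirectProduct.inl

/-- The extended length `ℓ(x, θ) = ℓ(x)`. -/
noncomputable def len (cs : CoxeterSystem M W) (w : WPlus cs) : ℕ := cs.length w.left

/-- `K` is a `W`-conjugacy class in `I⁺ = {w : w² = 1}`. -/
def IsInvClass (cs : CoxeterSystem M W) (K : Set (WPlus cs)) : Prop :=
  ∃ w₀ : WPlus cs, w₀ * w₀ = 1 ∧ K = {w | ∃ u : W, w = emb cs u * w₀ * (emb cs u)⁻¹}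

/-- The condition `ℓ(rwr) = ℓ(w) ⇒ rwr = w` on `R × K`. -/
def EqCond (cs : CoxeterSystem M W) (K : Set (WPlus cs)) : Prop :=
  ∀ r : W, cs.IsReflection r → ∀ w ∈ K, len cs (emb cs r * w * emb cs r) = len cs w →
    emb cs r * w * emb cs r = w

/-- `x → y`: `y = t x` for a reflection `t`, and `ℓ(x) < ℓ(y)`. -/
def BruhatStep (cs : CoxeterSystem M W) (x y : W) : Prop :=
  ∃ t, cs.IsReflection t ∧ y = t * x ∧ cs.length x < cs.length y

/-- The Bruhat order on `W`. -/
def BruhatLE (cs : CoxeterSystem M W) : W → W → Prop := Relation.ReflTransGen (BruhatStep cs)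

/-- The Bruhat order on `W⁺`: `(x, θ) ≤ (x', θ')` iff `θ = θ'` and `x ≤ x'`. -/
def PlusLE (cs : CoxeterSystem M W) (v w : WPlus cs) : Prop :=
  v.right = w.right ∧ BruhatLE cs v.left w.left

/-- The strict order. -/
def PlusLT (cs : CoxeterSystem M W) (v w : WPlus cs) : Prop := PlusLE cs v w ∧ v ≠ w

section aux

variable {cs : CoxeterSystem M W}

lemma aut_simple (θ : AutS cs) (i : B) : ∃ j, (θ : MulAut W) (cs.simple i) = cs.simple j := by
  have h : (θ : MulAut W) '' Set.range cs.simple = Set.range cs.simple := θ.2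
  have h1 : (θ : MulAut W) (cs.simple i) ∈ Set.range cs.simple := by
    rw [← h]; exact ⟨_, ⟨i, rfl⟩, rfl⟩
  obtain ⟨j, hj⟩ := h1
  exact ⟨j, hj.symm⟩

lemma aut_length_le (θ : AutS cs) (g : W) : cs.length ((θ : MulAut W) g) ≤ cs.length g := by
  obtain ⟨ω, hred, rfl⟩ := cs.exists_isReduced g
  choose f hf using aut_simple θ
  have h : (θ : MulAut W) (cs.wordProd ω) = cs.wordProd (ω.map f) := by
    rw [CoxeterSystem.wordProd, map_list_prod, CoxeterSystem.wordProd, List.map_map, List.map_map]
    congr 1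
    apply List.map_congr_left
    intro i _
    exact hf i
  rw [h, hred.eq]
  have := cs.length_wordProd_le (ω.map f)
  simpa using this

lemma aut_length (θ : AutS cs) (g : W) : cs.length ((θ : MulAut W) g) = cs.length g := by
  apply le_antisymm (aut_length_le θ g)
  have h := aut_length_le θ⁻¹ ((θ : MulAut W) g)
  have e : ((θ⁻¹ : AutS cs) : MulAut W) ((θ : MulAut W) g) = g := by
    rw [Subgroup.coe_inv]; exact MulAut.inv_apply_self W _ g
  rwa [e] at h

lemma aut_refl (θ : AutS cs) (t : W) (ht : cs.IsReflection t) : cs.IsReflection ((θ : MulAut W) t) := by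
  obtain ⟨w, i, rfl⟩ := ht
  obtain ⟨j, hj⟩ := aut_simple θ i
  refine ⟨(θ : MulAut W) w, j, ?_⟩
  rw [map_mul, map_mul, map_inv, hj]

lemma left_conj (w : WPlus cs) (x : W) :
    (emb cs x * w * emb cs x).left = x * w.left * (w.right : MulAut W) x := by
  simp [SemidirectProduct.mul_left]

lemma right_conj (w : WPlus cs) (x : W) : (emb cs x * w * emb cs x).right = w.right := by
  simp [SemidirectProduct.mul_right]

lemma left_conj' (w : WPlus cs) (x : W) :
    (emb cs x * w * (emb cs x)⁻¹).left = x * w.left * ((w.right : MulAut W) x)⁻¹ := by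
  rw [← map_inv]
  simp [SemidirectProduct.mul_left]

lemma right_conj' (w : WPlus cs) (x : W) : (emb cs x * w * (emb cs x)⁻¹).right = w.right := by
  rw [← map_inv]
  simp [SemidirectProduct.mul_right]

end aux

/-- For every Coxeter system `(W, S)` and every `W`-conjugacy class `K` of twisted involutions with
`ℓ(rwr) = ℓ(w) ⇒ rwr = w` for all `(r, w) ∈ R × K`, one has `ℓ(rwr) < ℓ(w) ⇒ rwr < w` for all
`(r, w) ∈ R × K`. -/
theorem result {B : Type*} {M : CoxeterMatrix B} {W : Type*} [Group W] (cs : CoxeterSystem M W)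
    (K : Set (WPlus cs)) (hK : IsInvClass cs K) (h1 : EqCond cs K) :
    ∀ r : W, cs.IsReflection r → ∀ w ∈ K, len cs (emb cs r * w * emb cs r) < len cs w →
      PlusLT cs (emb cs r * w * emb cs r) w := by
  intro r hr w hw hlt
  obtain ⟨w₀, hw₀, rfl⟩ := hK
  have hww : w * w = 1 := by
    obtain ⟨u, rfl⟩ := hw
    calc emb cs u * w₀ * (emb cs u)⁻¹ * (emb cs u * w₀ * (emb cs u)⁻¹)
        = emb cs u * (w₀ * w₀) * (emb cs u)⁻¹ := by group
      _ = 1 := by rw [hw₀]; group
  have hθθ : w.right * w.right = 1 := by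
    have := congrArg SemidirectProduct.right hww
    simpa using this
  have hxx : w.left * (w.right : MulAut W) w.left = 1 := by
    have := congrArg SemidirectProduct.left hww
    simpa using this
  have hθ2 : ∀ g, (w.right : MulAut W) ((w.right : MulAut W) g) = g := by
    intro g
    have h2 : ((w.right * w.right : AutS cs) : MulAut W) g = g := by rw [hθθ]; rfl
    exact h2
  have hmem : ∀ u : W, emb cs u * w * (emb cs u)⁻¹ ∈
      {w | ∃ u : W, w = emb cs u * w₀ * (emb cs u)⁻¹} := by
    intro u
    obtain ⟨u₀, rfl⟩ := hw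
    exact ⟨u * u₀, by rw [map_mul]; group⟩
  have key := Pool.Agent.V1121.QG.core_exch (cs := cs) (w.right : MulAut W) (aut_length w.right)
    (aut_refl w.right) w.left hxx hθ2 (by
      intro u t ht hl
      have h3 := h1 t ht _ (hmem u)
      have e1 : len cs (emb cs t * (emb cs u * w * (emb cs u)⁻¹) * emb cs t) =
          cs.length (t * (u * w.left * ((w.right : MulAut W) u)⁻¹) * (w.right : MulAut W) t) := by
        rw [len, left_conj, left_conj', right_conj']
      have e2 : len cs (emb cs u * w * (emb cs u)⁻¹) =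
          cs.length (u * w.left * ((w.right : MulAut W) u)⁻¹) := by
        rw [len, left_conj']
      have h4 := congrArg SemidirectProduct.left (h3 (by rw [e1, e2]; exact hl))
      rw [left_conj, left_conj', right_conj'] at h4
      exact h4) hr
    (by
      rw [len, len, left_conj] at hlt
      exact hlt)
  obtain ⟨t1, t2, ht1, ht2, hl1, hl2, he⟩ := key
  refine ⟨⟨right_conj w r, ?_⟩, ?_⟩
  · rw [left_conj]
    refine Relation.ReflTransGen.head ⟨t1, ht1, rfl, hl1⟩ (Relation.ReflTransGen.single ⟨t2, ht2, he, hl2⟩)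
  · intro h
    rw [h] at hlt
    exact lt_irrefl _ hlt

end Pool.Agent.Results.MP_af48a1_al.StrongExchange
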